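import Pool.Agent.H19.SY.Fin

set_option autoImplicit false

/-!
# The number of Lagrangian fibrations of the deformations of a primitive symplectic torus quotient

Let `X = V / Γ` be a primitive symplectic variety that is the quotient of a complex torus by a finite
group, `dim X = 2 n > 0`. The rational SYZ conjecture (Q1) is known for these varieties: each movable
line bundle `L` on `X` with `q_X(L) = 0` and `c_1(L) ≠ 0` is nef and induces a Lagrangian fibration. The
theorem answers the question on which of them, up to deformation, there are such line bundles, and how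
many. The deformations considered here are the `X_φ = V / φ Γ φ⁻¹` for the real linear automorphisms
`φ` of `V` which commute with the linear parts of `Γ`; they are the quotients of the real vector space
`V` by `Γ` for the complex structures `φ⁻¹ ∘ i ∘ φ`.

All `X_φ` are primitive symplectic, and their fibrations onto torus quotients `B`, `0 < dim B < 2 n`, are
exactly the Lagrangian fibrations induced by nef line bundles `L` with `q(L) = 0`, `c_1(L) ≠ 0`. There
are three cases:

* `b_2(X) = 3`, or `b_2(X) = 4` and `n` is even, and no `X_φ` has a fibration;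
* `b_2(X) = 4`, no `X_φ` has more than two fibrations, and the `X_φ` which are projective with
  exactly two Lagrangian fibrations are dense;
* `b_2(X) = 6`, and the `X_φ` which are projective with infinitely many Lagrangian fibrations are dense.

So if `b_2(X) ≥ 5`, there are arbitrarily small deformations of `X` with infinitely many Lagrangian
fibrations, and if some deformation has more than two of them then `b_2(X) = 6`.

The proof. A class in `H²(X, ℝ)` is an invariant alternating form `E = Im (H - c σ)`, `H` of type
`(1,1)`, and `E(x, y) = Im σ(x, R y)` for `R = J_H - c`, `J_H` conjugate linear with `J_H² = - q(H)`. So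
`R R' = q(H) + |c|²` for `R' = - J_H - c̄`: this is the Beauville-Bogomolov-Fujiki form. For two rational
classes `R_0⁻¹ R` is a rational operator `T` with `t T - T² = q(E) / q(E_0)`, and comparing the matrix
entries one sees that `q(E) / q(E_0)` is rational. So `q` is, up to a factor, a rational quadratic form;
its rank is `h^{1,1}(X) + 2` and it is indefinite if `h^{1,1}(X) ≥ 2`. If `h^{1,1}(X) ≥ 3` there is a
rational isotropic class by Meyer's theorem, hence (`DenseLagrangianFibrations` in an earlier run) a
deformation with two complementary fibrations with kernels `K`, `C`, that come from two rational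
subspaces. Let `A`, `B` be the nef classes with the kernels `K`, `C`, and `H ≠ 0` a class of type `(1,1)`
orthogonal to both. By the Hodge index theorem `q(H) < 0`, and the complex linear operators
`T = J_H J_B` and `W = κ J_A J_H` are matrix units: `W T` and `T W` are the projections to `K` and `C`.
Approximate `T` by a rational operator; the comparison of the two on `K` gives an arbitrarily small change of
the complex structure, after which the graph of the rational operator is a third complex subspace.
Three fibrations give infinitely many, and composing with the dense set of rational operators which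
commute with the group gives the density.

`IsPrimitiveSymplectic` and `LineBundle` are defined in `H19.L.S8.W594.SYZ.Defs2`; `IsChernForm`,
`IsNefForm`, `IsDegenerateForm` and `IsLagrangianFibration` in `H19.L.S8.W594.SYZ.TQDefs`;
`IsFibration` in `H19.L.S8.TH735.AQ.Defs`; `fibrations` and `IsProj` in `H19.L.B0.R189.SY.LagDefs`;
`Commutes` and `deform` in `H19.L.B0.R189.WS.Conj`; `b2`, `InducedBy`, `syzFibrations` and
`DenseDeformations` in `H19.SY.Defs`.
-/

namespace Pool.Agent.Results.MP_e4ecdb_ag.FibrationsOfDeformations

open Pool.Agent.W594.SYZ2 Pool.Agent.R189.SY Pool.Agent.R189.WS2 Pool.Agent.H19.SY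

/-- Let `X = V / Γ`, `dim X = 2 n > 0`, be a primitive symplectic torus quotient.

1. All `X_φ` are primitive symplectic, and each of their fibrations onto a torus quotient `B` with
   `0 < dim B < 2 n` is a Lagrangian fibration induced by a nef line bundle `L` with `q(L) = 0`,
   `c_1(L) ≠ 0`.
2. One of the following is true: `b_2(X) = 3`, or `b_2(X) = 4` and `n` is even, and no `X_φ` has a
   fibration; `b_2(X) = 4`, all `X_φ` have at most two fibrations, and the projective `X_φ` with
   exactly two Lagrangian fibrations are dense; `b_2(X) = 6`, and the projective `X_φ` with infinitely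
   many Lagrangian fibrations are dense. -/
theorem result {V : Type*} [NormedAddCommGroup V] [NormedSpace ℂ V] [FiniteDimensional ℂ V]
    [Nontrivial V] (Γ : Subgroup (V ≃ᵃ[ℂ] V)) (hΓ : IsPrimitiveSymplectic Γ) (n : ℕ)
    (hn : Module.finrank ℂ V = 2 * n) :
    (∀ φ : V ≃L[ℝ] V, Commutes Γ φ → IsPrimitiveSymplectic (deform Γ φ) ∧
      fibrations (deform Γ φ) = syzFibrations (deform Γ φ)) ∧
    (((b2 Γ = 3 ∨ b2 Γ = 4 ∧ Even n) ∧
        ∀ φ : V ≃L[ℝ] V, Commutes Γ φ → fibrations (deform Γ φ) = ∅) ∨
      (b2 Γ = 4 ∧
        (∀ φ : V ≃L[ℝ] V, Commutes Γ φ → ∃ K K', fibrations (deform Γ φ) ⊆ {K, K'}) ∧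
        DenseDeformations Γ fun Γ' => IsProj Γ' ∧ ∃ K K', K ≠ K' ∧ syzFibrations Γ' = {K, K'}) ∨
      (b2 Γ = 6 ∧ DenseDeformations Γ fun Γ' => IsProj Γ' ∧ (syzFibrations Γ').Infinite)) := by
  have hp : ∀ φ : V ≃L[ℝ] V, Commutes Γ φ → IsPrimitiveSymplectic (deform Γ φ) := by
    intro φ hφ
    rw [deform_eq]
    exact Pool.Agent.R189.WS.prim_deform hΓ hφ
  refine ⟨fun φ hφ => ⟨hp φ hφ, (syz_eq (hp φ hφ)).symm⟩, ?_⟩
  rcases main_cases hΓ hn with ⟨h1, h2⟩ | ⟨h1, h2, h3⟩ | ⟨h1, h2⟩
  · exact Or.inl ⟨h1, fun φ hφ => by rw [deform_eq]; exact h2 φ hφ⟩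
  · refine Or.inr (Or.inl ⟨h1, fun φ hφ => by rw [deform_eq]; exact h2 φ hφ, fun φ hφ ε hε => ?_⟩)
    obtain ⟨φ', g1, g2, g3⟩ := h3 φ hφ ε hε
    refine ⟨φ', g1, g2, ?_⟩
    beta_reduce
    rw [syz_eq (hp φ' g1), deform_eq]
    exact g3
  · refine Or.inr (Or.inr ⟨h1, fun φ hφ ε hε => ?_⟩)
    obtain ⟨φ', g1, g2, g3⟩ := h2 φ hφ ε hε
    refine ⟨φ', g1, g2, ?_⟩
    beta_reduce
    rw [syz_eq (hp φ' g1), deform_eq]
    exact g3

end Pool.Agent.Results.MP_e4ecdb_ag.FibrationsOfDeformations
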